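import Mathlib

set_option autoImplicit false

namespace Pool.Agent.Lib.MP_4c03a7_co

/-- `kK_p`: the disjoint union of `k` copies of the complete graph `K_p`; the vertex `(a, b)` is
vertex `b` of copy `a`. -/
def disjCliques (k p : ℕ) : SimpleGraph (Fin k × Fin p) where
  Adj x y := x.1 = y.1 ∧ x.2 ≠ y.2
  symm := ⟨fun _ _ h => ⟨h.1.symm, h.2.symm⟩⟩
  loopless := ⟨fun _ h => h.2 rfl⟩

end Pool.Agent.Lib.MP_4c03a7_co
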