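import Mathlib

/-!
Key lemma: in a graph with all degrees below r, an independent p-set with a large degree sum.
-/

set_option autoImplicit false

open Finset

namespace Pool.Agent.Lib.MP_4c03a7_co

variable {V : Type*} [DecidableEq V] (H : SimpleGraph V) [DecidableRel H.Adj]

/-- degree of `v` inside the vertex set `U`, as an integer -/
def dg (U : Finset V) (v : V) : ℤ := ∑ u ∈ U, if H.Adj v u then 1 else 0

/-- independent finite set -/
def Ind (I : Finset V) : Prop := ∀ a ∈ I, ∀ b ∈ I, ¬ H.Adj a b

omit [DecidableEq V] in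
lemma dg_nonneg (U : Finset V) (v : V) : 0 ≤ dg H U v := by
  unfold dg
  exact Finset.sum_nonneg (fun u _ => by split_ifs <;> norm_num)

/-- double counting over closed neighbourhoods -/
lemma double_count (U I : Finset V) (hI : I ⊆ U) (a c : V → ℤ)
    (h : ∀ u ∈ U, a u ≤ ∑ v ∈ I, if (u = v ∨ H.Adj u v) then c v else 0) :
    ∑ u ∈ U, a u ≤ ∑ v ∈ I, (dg H U v + 1) * c v := by
  calc ∑ u ∈ U, a u ≤ ∑ u ∈ U, ∑ v ∈ I, if (u = v ∨ H.Adj u v) then c v else 0 :=
        Finset.sum_le_sum h
    _ = ∑ v ∈ I, ∑ u ∈ U, if (u = v ∨ H.Adj u v) then c v else 0 := Finset.sum_comm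
    _ = ∑ v ∈ I, (dg H U v + 1) * c v := by
        refine Finset.sum_congr rfl (fun v hv => ?_)
        have h1 : ∀ u ∈ U, (if (u = v ∨ H.Adj u v) then c v else 0) =
            ((if H.Adj v u then (1 : ℤ) else 0) + (if u = v then 1 else 0)) * c v := by
          intro u _
          by_cases h1 : u = v
          · subst h1; simp
          · by_cases h2 : H.Adj u v
            · simp [h1, h2, h2.symm]
            · have h3 : ¬ H.Adj v u := fun h => h2 h.symm
              simp [h1, h2, h3]
        rw [Finset.sum_congr rfl h1, ← Finset.sum_mul, Finset.sum_add_distrib]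
        congr 1
        unfold dg
        congr 1
        rw [Finset.sum_ite_eq' U v (fun _ => (1 : ℤ))]
        simp [hI hv]

/-- removing an independent set -/
lemma sum_dg_sdiff (U I : Finset V) (hI : I ⊆ U) (hind : Ind H I) :
    ∑ v ∈ U \ I, dg H (U \ I) v = ∑ v ∈ U, dg H U v - 2 * ∑ v ∈ I, dg H U v := by
  have hsplit : ∀ v, dg H U v = dg H (U \ I) v + dg H I v := by
    intro v
    unfold dg
    rw [Finset.sum_sdiff hI]
  have h0 : ∀ v ∈ I, dg H I v = 0 := by
    intro v hv
    unfold dg
    exact Finset.sum_eq_zero (fun u hu => by simp [hind v hv u hu])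
  have hsym : ∑ v ∈ U \ I, dg H I v = ∑ v ∈ I, dg H (U \ I) v := by
    unfold dg
    rw [Finset.sum_comm]
    refine Finset.sum_congr rfl (fun v _ => Finset.sum_congr rfl (fun u _ => ?_))
    simp only [H.adj_comm]
  have h1 : ∑ v ∈ I, dg H U v = ∑ v ∈ I, dg H (U \ I) v := by
    refine Finset.sum_congr rfl (fun v hv => ?_)
    rw [hsplit v, h0 v hv, add_zero]
  have h2 : ∑ v ∈ U, dg H U v = ∑ v ∈ U \ I, dg H U v + ∑ v ∈ I, dg H U v :=
    (Finset.sum_sdiff hI).symm
  have h3 : ∑ v ∈ U \ I, dg H U v = ∑ v ∈ U \ I, dg H (U \ I) v + ∑ v ∈ U \ I, dg H I v := by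
    rw [← Finset.sum_add_distrib]
    exact Finset.sum_congr rfl (fun v _ => hsplit v)
  rw [h2, h3, hsym, h1]
  ring

/-- the heaviest-first greedy independent set -/
lemma greedy (d : V → ℤ) (q : ℕ) : ∀ W : Finset V, ∃ I ⊆ W, Ind H I ∧ I.card ≤ q ∧
    ∀ u ∈ W, (∃ v ∈ I, (u = v ∨ H.Adj u v) ∧ d u ≤ d v) ∨ (I.card = q ∧ ∀ v ∈ I, d u ≤ d v) := by
  induction q with
  | zero =>
    intro W
    refine ⟨∅, Finset.empty_subset _, ?_, by simp, ?_⟩
    · intro a ha; simp at ha
    · intro u _; right; simp
  | succ q ih =>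
    intro W
    rcases W.eq_empty_or_nonempty with rfl | hW
    · refine ⟨∅, Finset.empty_subset _, ?_, by simp, ?_⟩
      · intro a ha; simp at ha
      · intro u hu; simp at hu
    · obtain ⟨v, hv, hmax⟩ := Finset.exists_max_image W d hW
      obtain ⟨I, hIW, hind, hcard, hI⟩ := ih (W.filter (fun u => ¬ (u = v ∨ H.Adj u v)))
      have hvI : v ∉ I := fun h => by
        have := hIW h
        simp at this
      refine ⟨insert v I, ?_, ?_, ?_, ?_⟩
      · intro x hx
        rcases Finset.mem_insert.1 hx with rfl | hx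
        · exact hv
        · exact (Finset.mem_filter.1 (hIW hx)).1
      · intro a ha b hb
        rcases Finset.mem_insert.1 ha with rfl | ha' <;> rcases Finset.mem_insert.1 hb with rfl | hb'
        · exact H.irrefl
        · intro h
          exact (Finset.mem_filter.1 (hIW hb')).2 (Or.inr h.symm)
        · intro h
          exact (Finset.mem_filter.1 (hIW ha')).2 (Or.inr h)
        · exact hind a ha' b hb'
      · rw [Finset.card_insert_of_notMem hvI]; omega
      · intro u hu
        by_cases huv : u = v ∨ H.Adj u v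
        · exact Or.inl ⟨v, Finset.mem_insert_self _ _, huv, hmax u hu⟩
        · rcases hI u (Finset.mem_filter.2 ⟨hu, huv⟩) with ⟨w, hw, h1, h2⟩ | ⟨h1, h2⟩
          · exact Or.inl ⟨w, Finset.mem_insert_of_mem hw, h1, h2⟩
          · right
            refine ⟨by rw [Finset.card_insert_of_notMem hvI, h1], ?_⟩
            intro w hw
            rcases Finset.mem_insert.1 hw with rfl | hw
            · exact hmax u hu
            · exact h2 w hw

/-- a dominating set has a large degree sum -/
lemma dom_bound (U I : Finset V) (hI : I ⊆ U)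
    (hdom : ∀ u ∈ U, ∃ v ∈ I, (u = v ∨ H.Adj u v)) :
    (U.card : ℤ) ≤ ∑ v ∈ I, dg H U v + I.card := by
  have := double_count H U I hI (fun _ => 1) (fun _ => 1) (fun u hu => by
    obtain ⟨v, hv, h⟩ := hdom u hu
    have := Finset.single_le_sum (f := fun v => if (u = v ∨ H.Adj u v) then (1 : ℤ) else 0)
      (fun i _ => by split_ifs <;> norm_num) hv
    simpa [h] using this)
  simpa [Finset.sum_add_distrib] using this

/-- The key lemma. -/
lemma key (U : Finset V) (p : ℕ) (r σ : ℤ) (hp : 1 ≤ p)
    (hdeg : ∀ v ∈ U, dg H U v ≤ r - 1)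
    (hn : (U.card : ℤ) ≤ r * p)
    (hE : ∑ v ∈ U, dg H U v < r * (2 * U.card - (p - 1) * (r + 1)))
    (hσ : ∀ m : ℕ, m < p → (U.card : ℤ) ≤ r * m → σ + (r - 1) ≤ U.card - m) (hr : 1 ≤ r) :
    ∃ I ⊆ U, Ind H I ∧ I.card = p ∧
      (∑ v ∈ U, dg H U v ≤ r * ∑ v ∈ I, dg H U v ∨ σ ≤ ∑ v ∈ I, dg H U v) := by
  classical
  set d : V → ℤ := dg H U with hd
  set E : ℤ := ∑ v ∈ U, d v with hEdef
  have hd0 : ∀ v, 0 ≤ d v := fun v => dg_nonneg H U v
  -- facts on small dominating sets
  have hsmall : ∀ I ⊆ U, I.card < p → (∀ u ∈ U, ∃ v ∈ I, (u = v ∨ H.Adj u v)) →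
      σ + (r - 1) ≤ ∑ v ∈ I, d v := by
    intro I hI hlt hdom
    have h1 := dom_bound H U I hI hdom
    have h2 : ∑ v ∈ I, d v ≤ ∑ _v ∈ I, (r - 1) := Finset.sum_le_sum (fun v hv => hdeg v (hI hv))
    rw [Finset.sum_const, nsmul_eq_mul] at h2
    have h3 := hσ I.card hlt (by rw [← hd] at h1; nlinarith)
    rw [← hd] at h1
    linarith
  -- the family of good sets
  let good : Finset V → Prop := fun I => Ind H I ∧ I.card ≤ p ∧
    (E ≤ r * ∑ v ∈ I, d v ∨ σ ≤ ∑ v ∈ I, d v)
  have hne : (U.powerset.filter good).Nonempty := by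
    obtain ⟨I, hIU, hind, hcard, hI⟩ := greedy H d p U
    refine ⟨I, Finset.mem_filter.2 ⟨Finset.mem_powerset.2 hIU, hind, hcard, ?_⟩⟩
    rcases hcard.lt_or_eq with hlt | heq
    · right
      have := hsmall I hIU hlt (fun u hu => by
        rcases hI u hu with ⟨v, hv, h, _⟩ | ⟨h, _⟩
        · exact ⟨v, hv, h⟩
        · omega)
      linarith
    · left
      have hIne : I.Nonempty := Finset.card_pos.1 (by omega)
      obtain ⟨v0, hv0, hmin⟩ := Finset.exists_min_image I d hIne
      have h1 := double_count H U I hIU (fun u => d u - d v0) (fun v => d v - d v0) (fun u hu => by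
        have hnn : ∀ v ∈ I, 0 ≤ (if (u = v ∨ H.Adj u v) then d v - d v0 else 0) := by
          intro v hv
          have := hmin v hv
          split_ifs <;> linarith
        rcases hI u hu with ⟨v, hv, h, h'⟩ | ⟨_, h⟩
        · have := Finset.single_le_sum hnn hv
          simp only [h, if_true] at this
          linarith
        · have := h v0 hv0
          have := Finset.sum_nonneg hnn
          linarith)
      have h2 : ∑ v ∈ I, (dg H U v + 1) * (d v - d v0) ≤ ∑ v ∈ I, r * (d v - d v0) := by
        refine Finset.sum_le_sum (fun v hv => ?_)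
        have := hmin v hv
        have := hdeg v (hIU hv)
        apply mul_le_mul_of_nonneg_right <;> linarith
      rw [← Finset.mul_sum, Finset.sum_sub_distrib, Finset.sum_const, nsmul_eq_mul, heq] at h2
      rw [Finset.sum_sub_distrib, Finset.sum_const, nsmul_eq_mul] at h1
      have := hd0 v0
      nlinarith
  -- maximal size, then minimal weight
  obtain ⟨I0, hI0, hmax0⟩ := Finset.exists_max_image _ Finset.card hne
  have hne2 : ((U.powerset.filter good).filter (fun I => I.card = I0.card)).Nonempty :=
    ⟨I0, Finset.mem_filter.2 ⟨hI0, rfl⟩⟩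
  obtain ⟨I, hI, hmin⟩ := Finset.exists_min_image _ (fun I => ∑ v ∈ I, d v) hne2
  obtain ⟨hI1, hIc⟩ := Finset.mem_filter.1 hI
  obtain ⟨hIU, hind, hcard, hgood⟩ := Finset.mem_filter.1 hI1
  rw [Finset.mem_powerset] at hIU
  rcases hcard.lt_or_eq with hlt | heq
  swap
  · exact ⟨I, hIU, hind, heq, hgood⟩
  exfalso
  -- I is dominating
  have hdom : ∀ u ∈ U, ∃ v ∈ I, (u = v ∨ H.Adj u v) := by
    intro u hu
    by_contra hcon
    push Not at hcon
    have huI : u ∉ I := fun h => (hcon u h).1 rfl
    have hmem : insert u I ∈ U.powerset.filter good := by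
      refine Finset.mem_filter.2 ⟨Finset.mem_powerset.2 (Finset.insert_subset hu hIU), ?_, ?_, ?_⟩
      · intro a ha b hb
        rcases Finset.mem_insert.1 ha with rfl | ha' <;> rcases Finset.mem_insert.1 hb with rfl | hb'
        · exact H.irrefl
        · exact (hcon b hb').2
        · exact fun h => (hcon a ha').2 h.symm
        · exact hind a ha' b hb'
      · rw [Finset.card_insert_of_notMem huI]; omega
      · rw [Finset.sum_insert huI]
        have := hd0 u
        rcases hgood with h | h
        · left; nlinarith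
        · right; linarith
    have := hmax0 _ hmem
    rw [Finset.card_insert_of_notMem huI] at this
    omega
  have hT := hsmall I hIU hlt hdom
  -- private neighbours are at least as heavy
  have hpriv : ∀ u ∈ U, u ∉ I → ∀ v ∈ I, (∀ w ∈ I, H.Adj u w → w = v) → d v ≤ d u := by
    intro u hu huI v hv huniq
    have huI' : u ∉ I.erase v := fun h => huI (Finset.mem_of_mem_erase h)
    have hsum : ∑ w ∈ insert u (I.erase v), d w = d u + (∑ w ∈ I, d w - d v) := by
      rw [Finset.sum_insert huI', Finset.sum_erase_eq_sub hv]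
    have hcard' : (insert u (I.erase v)).card = I.card := by
      rw [Finset.card_insert_of_notMem huI', Finset.card_erase_of_mem hv]
      have := Finset.card_pos.2 ⟨v, hv⟩
      omega
    have hmem : insert u (I.erase v) ∈
        (U.powerset.filter good).filter (fun I => I.card = I0.card) := by
      refine Finset.mem_filter.2 ⟨Finset.mem_filter.2 ⟨Finset.mem_powerset.2
        (Finset.insert_subset hu ((Finset.erase_subset _ _).trans hIU)), ?_, ?_, ?_⟩, ?_⟩
      · intro a ha b hb
        rcases Finset.mem_insert.1 ha with rfl | ha' <;> rcases Finset.mem_insert.1 hb with rfl | hb'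
        · exact H.irrefl
        · intro h
          exact (Finset.ne_of_mem_erase hb') (huniq b (Finset.mem_of_mem_erase hb') h)
        · intro h
          exact (Finset.ne_of_mem_erase ha') (huniq a (Finset.mem_of_mem_erase ha') h.symm)
        · exact hind a (Finset.mem_of_mem_erase ha') b (Finset.mem_of_mem_erase hb')
      · omega
      · right
        rw [hsum]
        have := hd0 u
        have := hdeg v (hIU hv)
        linarith
      · omega
    have := hmin _ hmem
    simp only [hsum] at this
    linarith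
  have h1 := double_count H U I hIU (fun u => 2 * r - d u) (fun v => 2 * r - d v) (fun u hu => by
    have hnn : ∀ v ∈ I, 0 ≤ (if (u = v ∨ H.Adj u v) then 2 * r - d v else 0) := by
      intro v hv
      have := hdeg v (hIU hv)
      split_ifs <;> linarith
    by_cases huI : u ∈ I
    · have := Finset.single_le_sum hnn huI
      simpa using this
    · obtain ⟨v, hv, h⟩ := hdom u hu
      by_cases huniq : ∀ w ∈ I, H.Adj u w → w = v
      · have h1 := hpriv u hu huI v hv huniq
        have := Finset.single_le_sum hnn hv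
        simp only [h, if_true] at this
        linarith
      · push Not at huniq
        obtain ⟨w, hw, hadj, hwv⟩ := huniq
        have hsub : ({w, v} : Finset V) ⊆ I := by
          intro x hx
          rcases Finset.mem_insert.1 hx with rfl | hx
          · exact hw
          · rw [Finset.mem_singleton.1 hx]; exact hv
        have := Finset.sum_le_sum_of_subset_of_nonneg hsub (fun i hi _ => hnn i hi)
        rw [Finset.sum_pair hwv] at this
        simp only [h, hadj, or_true, if_true] at this
        have := hdeg v (hIU hv)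
        have := hdeg w (hIU hw)
        have := hd0 u
        linarith)
  have h2 : ∑ v ∈ I, (dg H U v + 1) * (2 * r - d v) ≤ ∑ _v ∈ I, r * (r + 1) := by
    refine Finset.sum_le_sum (fun v hv => ?_)
    have := hdeg v (hIU hv)
    change (d v + 1) * (2 * r - d v) ≤ _
    nlinarith
  rw [Finset.sum_const, nsmul_eq_mul] at h2
  rw [Finset.sum_sub_distrib, Finset.sum_const, nsmul_eq_mul] at h1
  have h3 : (I.card : ℤ) ≤ p - 1 := by omega
  have h4 : (I.card : ℤ) * (r * (r + 1)) ≤ (p - 1) * (r * (r + 1)) :=
    mul_le_mul_of_nonneg_right h3 (by positivity)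
  nlinarith

end Pool.Agent.Lib.MP_4c03a7_co
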