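import Mathlib
import Pool.Agent.Lib.MP_4c03a7_co.Key

/-!
The main inequality: few edges force k disjoint independent p-sets.
-/

set_option autoImplicit false

open Finset

namespace Pool.Agent.Lib.MP_4c03a7_co

variable {V : Type*} [DecidableEq V] (H : SimpleGraph V) [DecidableRel H.Adj]

/-- `k` pairwise disjoint independent `p`-sets inside `U` -/
def Pack (p : ℕ) : ℕ → Finset V → Prop
  | 0, _ => True
  | k + 1, U => ∃ I ⊆ U, Ind H I ∧ I.card = p ∧ Pack p k (U \ I)

omit [DecidableRel H.Adj] in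
lemma Pack.mono (p : ℕ) : ∀ (k : ℕ) (U W : Finset V), U ⊆ W → Pack H p k U → Pack H p k W
  | 0, _, _, _, _ => trivial
  | k + 1, _, _, h, ⟨I, hI, hind, hc, hp⟩ =>
    ⟨I, hI.trans h, hind, hc, Pack.mono p k _ _ (Finset.sdiff_subset_sdiff h (le_refl _)) hp⟩

omit [DecidableRel H.Adj] in
lemma Pack.exists_fun (p : ℕ) : ∀ (k : ℕ) (U : Finset V), Pack H p k U →
    ∃ g : Fin k × Fin p → V, Function.Injective g ∧ (∀ x, g x ∈ U) ∧
      ∀ a b b', ¬ H.Adj (g (a, b)) (g (a, b'))
  | 0, _, _ => ⟨fun x => x.1.elim0, fun x => x.1.elim0, fun x => x.1.elim0, fun a => a.elim0⟩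
  | k + 1, U, ⟨I, hI, hind, hc, hp⟩ => by
    obtain ⟨g, hg, hgU, hgind⟩ := Pack.exists_fun p k _ hp
    let e : I ≃ Fin p := I.equivFinOfCardEq hc
    let g' : Fin (k + 1) × Fin p → V := fun x =>
      (Fin.cons (fun b => (e.symm b : V)) (fun a b => g (a, b)) : Fin (k + 1) → Fin p → V) x.1 x.2
    have h0 : ∀ b, g' (0, b) = (e.symm b : V) := fun b => rfl
    have hs : ∀ (a : Fin k) b, g' (a.succ, b) = g (a, b) := fun a b => rfl
    refine ⟨g', ?_, ?_, ?_⟩
    · rintro ⟨a, b⟩ ⟨a', b'⟩ h
      induction a using Fin.cases with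
      | zero =>
        induction a' using Fin.cases with
        | zero =>
          rw [h0, h0] at h
          rw [e.symm.injective (Subtype.ext h)]
        | succ a' =>
          rw [h0, hs] at h
          have := (Finset.mem_sdiff.1 (hgU (a', b'))).2
          rw [← h] at this
          exact absurd (e.symm b).2 this
      | succ a =>
        induction a' using Fin.cases with
        | zero =>
          rw [h0, hs] at h
          have := (Finset.mem_sdiff.1 (hgU (a, b))).2
          rw [h] at this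
          exact absurd (e.symm b').2 this
        | succ a' =>
          rw [hs, hs] at h
          have := hg h
          simp only [Prod.mk.injEq] at this
          rw [this.1, this.2]
    · rintro ⟨a, b⟩
      induction a using Fin.cases with
      | zero => rw [h0]; exact hI (e.symm b).2
      | succ a => rw [hs]; exact (Finset.mem_sdiff.1 (hgU (a, b))).1
    · intro a b b'
      induction a using Fin.cases with
      | zero => rw [h0, h0]; exact hind _ (e.symm b).2 _ (e.symm b').2
      | succ a => rw [hs, hs]; exact hgind a b b'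

/-- The main inequality. -/
theorem pack_of_few_edges (p : ℕ) (hp : 1 ≤ p) : ∀ (N : ℕ) (k r : ℕ) (U : Finset V),
    U.card + r = N → 2 * k ≤ r + 1 →
    ∑ v ∈ U, dg H U v < (r : ℤ) * (2 * (U.card - k + 1) - (p - 1) * (r + 1)) →
    Pack H p k U := by
  intro N
  induction N using Nat.strong_induction_on with
  | _ N ih =>
  intro k r U hN hkr hE
  rcases k with _ | k
  · trivial
  push_cast at hE
  have hE0 : 0 ≤ ∑ v ∈ U, dg H U v := Finset.sum_nonneg (fun v _ => dg_nonneg H U v)
  have hp' : (1 : ℤ) ≤ p := by exact_mod_cast hp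
  have hkr' : 2 * (k : ℤ) + 1 ≤ r := by exact_mod_cast (show 2 * k + 1 ≤ r by omega)
  have hk0 : (0 : ℤ) ≤ k := Int.natCast_nonneg k
  -- reduction of r
  by_cases hred : 2 * k + 2 ≤ r ∧ (U.card : ℤ) - k ≤ (p - 1) * r
  · obtain ⟨r', rfl⟩ : ∃ r', r = r' + 1 := ⟨r - 1, by omega⟩
    refine ih (U.card + r') (by omega) (k + 1) r' U rfl (by omega) ?_
    have h2 := hred.2
    push_cast at hE h2 ⊢
    nlinarith
  -- deletion of a vertex
  by_cases hdel : ∃ v ∈ U, ∑ v ∈ U, dg H U v - 2 * dg H U v <
      (r : ℤ) * (2 * (U.card - 1 - k) - (p - 1) * (r + 1))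
  · obtain ⟨v, hv, h⟩ := hdel
    have hsub : ({v} : Finset V) ⊆ U := Finset.singleton_subset_iff.2 hv
    have hc : (U \ {v}).card + 1 = U.card := by
      rw [Finset.card_sdiff_of_subset hsub, Finset.card_singleton]
      have := Finset.card_pos.2 ⟨v, hv⟩
      omega
    refine Pack.mono H p _ _ _ Finset.sdiff_subset
      (ih ((U \ {v}).card + r) (by omega) (k + 1) r (U \ {v}) rfl hkr ?_)
    rw [sum_dg_sdiff H U {v} hsub (by
      intro a ha b hb
      rw [Finset.mem_singleton.1 ha, Finset.mem_singleton.1 hb]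
      exact H.irrefl), Finset.sum_singleton]
    have : ((U \ {v}).card : ℤ) = U.card - 1 := by omega
    rw [this]
    push_cast
    linarith
  push Not at hdel
  have hdeg : ∀ v ∈ U, dg H U v ≤ r - 1 := by
    intro v hv
    have := hdel v hv
    have : 2 * dg H U v < 2 * r := by nlinarith
    omega
  have hUne : U.Nonempty := by
    rcases U.eq_empty_or_nonempty with rfl | h
    · simp only [Finset.sum_empty, Finset.card_empty, Nat.cast_zero] at hE
      have : (0 : ℤ) ≤ (p - 1) * (r + 1) := by positivity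
      have : (r : ℤ) * (2 * (0 - (k + 1) + 1) - (p - 1) * (r + 1)) ≤ 0 :=
        mul_nonpos_of_nonneg_of_nonpos (by positivity) (by linarith)
      linarith
    · exact h
  have hn : (U.card : ℤ) ≤ r * p := by
    obtain ⟨v, hv⟩ := hUne
    have h1 := hdel v hv
    have h2 := dg_nonneg H U v
    have h3 : ∑ v ∈ U, dg H U v ≤ ∑ _v ∈ U, ((r : ℤ) - 1) := Finset.sum_le_sum hdeg
    rw [Finset.sum_const, nsmul_eq_mul] at h3
    have h4 : (U.card : ℤ) * (r + 1) ≤ (r * p) * (r + 1) := by nlinarith
    exact le_of_mul_le_mul_right h4 (by positivity)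
  obtain ⟨I, hIU, hind, hc, hgood⟩ := key H U p r (2 * (U.card - k) - (p - 1) * (r + 1)) hp hdeg hn
    (by nlinarith) (by
      intro m hm hnm
      have hm' : (m : ℤ) ≤ p - 1 := by omega
      have h5 : (r : ℤ) * m ≤ r * (p - 1) := mul_le_mul_of_nonneg_left hm' (by positivity)
      by_cases hr : 2 * k + 2 ≤ r
      · have : ¬ ((U.card : ℤ) - k ≤ (p - 1) * r) := fun h => hred ⟨hr, h⟩
        nlinarith
      · have : (r : ℤ) = 2 * k + 1 := by omega
        nlinarith) (by omega)
  refine ⟨I, hIU, hind, hc, ?_⟩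
  rcases k with _ | k
  · trivial
  obtain ⟨r', rfl⟩ : ∃ r', r = r' + 2 := ⟨r - 2, by omega⟩
  have hcard : (U \ I).card + p = U.card := by
    rw [Finset.card_sdiff_of_subset hIU, hc]
    have := Finset.card_le_card hIU
    omega
  refine ih ((U \ I).card + r') (by omega) (k + 1) r' (U \ I) rfl (by omega) ?_
  rw [sum_dg_sdiff H U I hIU hind]
  have : ((U \ I).card : ℤ) = U.card - p := by omega
  rw [this]
  push_cast at hE hgood hkr' ⊢
  have hr1 : (1 : ℤ) ≤ r' := by linarith
  rcases hgood with h | h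
  · have h6 : ((r' : ℤ) + 2) * (∑ v ∈ U, dg H U v - 2 * ∑ v ∈ I, dg H U v) <
        ((r' : ℤ) + 2) * (r' * (2 * (U.card - p - (k + 1) + 1) - (p - 1) * (r' + 1))) := by
      nlinarith
    exact lt_of_mul_lt_mul_left h6 (by linarith)
  · nlinarith

end Pool.Agent.Lib.MP_4c03a7_co
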