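import Mathlib
import Pool.Agent.Lib.MP_4c03a7_co.Defs
import Pool.Agent.Lib.MP_4c03a7_co.Upper

/-!
Upper and lower bounds for the extremal number of disjoint cliques.
-/

set_option autoImplicit false

open Finset SimpleGraph

namespace Pool.Agent.Lib.MP_4c03a7_co

lemma two_mul_choose_two (n : ℕ) : 2 * (n.choose 2 : ℤ) = n * (n - 1) := by
  induction n with
  | zero => simp
  | succ n ih =>
    rw [Nat.choose_succ_succ' n 1, Nat.choose_one_right]
    push_cast
    linarith

/-- upper bound, for every slope `r ≥ 2k-1` -/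
theorem upper (n k p r : ℕ) (hp : 1 ≤ p) (hkr : 2 * k ≤ r + 1) :
    2 * (extremalNumber n (disjCliques k p) : ℤ) ≤
      n * (n - 1) - (r : ℤ) * (2 * (n - k + 1) - (p - 1) * (r + 1)) ∨
    extremalNumber n (disjCliques k p) = 0 := by
  classical
  by_cases h0 : extremalNumber n (disjCliques k p) = 0
  · exact Or.inr h0
  left
  have hlt : extremalNumber n (disjCliques k p) - 1 <
      extremalNumber (Fintype.card (Fin n)) (disjCliques k p) := by
    rw [Fintype.card_fin]; omega
  obtain ⟨G, _, hfree, hG⟩ := (lt_extremalNumber_iff _ _).1 hlt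
  have hG' : (extremalNumber n (disjCliques k p) : ℤ) ≤ #G.edgeFinset := by omega
  have hdeg : ∀ v, dg Gᶜ univ v = n - 1 - G.degree v := by
    intro v
    have h1 : dg Gᶜ univ v = (Gᶜ.degree v : ℤ) := by
      unfold dg
      rw [← card_neighborFinset_eq_degree, neighborFinset_eq_filter, Finset.card_filter]
      push_cast
      rfl
    have h2 := G.degree_compl v
    have h3 := G.degree_lt_card_verts v
    rw [Fintype.card_fin] at h2 h3
    omega
  have hsum : ∑ v, dg Gᶜ univ v = n * (n - 1) - 2 * #G.edgeFinset := by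
    rw [Finset.sum_congr rfl (fun v _ => hdeg v), Finset.sum_sub_distrib, Finset.sum_const,
      Finset.card_univ, Fintype.card_fin, nsmul_eq_mul]
    have := G.sum_degrees_eq_twice_card_edges
    have h2 : (∑ v, (G.degree v : ℤ)) = 2 * #G.edgeFinset := by exact_mod_cast this
    rw [h2]
  by_contra hcon
  push Not at hcon
  have hpack := pack_of_few_edges Gᶜ p hp _ k r univ rfl hkr (by
    rw [hsum, Finset.card_univ, Fintype.card_fin]
    linarith)
  obtain ⟨g, hg, -, hind⟩ := Pack.exists_fun Gᶜ p k univ hpack
  apply hfree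
  refine ⟨⟨⟨g, ?_⟩, hg⟩⟩
  rintro ⟨a, b⟩ ⟨a', b'⟩ ⟨h1, h2⟩
  simp only at h1 h2
  subst h1
  have h3 := hind a b b'
  rw [compl_adj] at h3
  push Not at h3
  exact h3 (fun h => h2 (by simpa using hg h))

/-- complete multipartite graphs as lower bounds -/
theorem lower {ι : Type} [Fintype ι] [DecidableEq ι] (a : ι → ℕ) (k p : ℕ)
    (h : ∑ i, min (a i) k < k * p) :
    ((∑ i, a i : ℕ) : ℤ) * ((∑ i, a i : ℕ) - 1) - ∑ i, (a i : ℤ) * (a i - 1) ≤
      2 * (extremalNumber (∑ i, a i) (disjCliques k p) : ℤ) := by
  classical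
  let G : SimpleGraph (Σ i, Fin (a i)) := (⊤ : SimpleGraph ι).comap Sigma.fst
  have hadj : ∀ x y, G.Adj x y ↔ x.1 ≠ y.1 := fun x y => by simp [G]
  have hcard : Fintype.card (Σ i, Fin (a i)) = ∑ i, a i := by simp
  have hfib : ∀ i, #(univ.filter (fun y : (Σ i, Fin (a i)) => y.1 = i)) = a i := by
    intro i
    rw [Finset.card_filter, Fintype.sum_sigma, Finset.sum_eq_single i]
    · simp
    · intro b _ hb
      simp [hb]
    · simp
  have hfree : (disjCliques k p).Free G := by
    rintro ⟨f⟩
    have h1 : (univ : Finset (Fin k × Fin p)).card =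
        ∑ i, #(univ.filter (fun x : Fin k × Fin p => (f x).1 = i)) :=
      Finset.card_eq_sum_card_fiberwise (f := fun x : Fin k × Fin p => (f x).1) (t := univ)
        (fun _ _ => Finset.mem_coe.2 (Finset.mem_univ _))
    have h2 : ∀ i, #(univ.filter (fun x : Fin k × Fin p => (f x).1 = i)) ≤ min (a i) k := by
      intro i
      refine le_min ?_ ?_
      · rw [← hfib i]
        refine Finset.card_le_card_of_injOn f ?_ (fun x _ y _ hxy => f.injective hxy)
        intro x hx
        simpa using hx
      · have : #(univ.filter (fun x : Fin k × Fin p => (f x).1 = i)) ≤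
            #(univ : Finset (Fin k)) := by
          refine Finset.card_le_card_of_injOn Prod.fst (fun _ _ => by simp) ?_
          intro x hx y hy hxy
          by_contra hne
          have hx' : (f x).1 = i := by simpa using hx
          have hy' : (f y).1 = i := by simpa using hy
          have hA : (disjCliques k p).Adj x y := ⟨hxy, fun h => hne (Prod.ext hxy h)⟩
          have := (hadj _ _).1 (f.toHom.map_adj hA)
          exact this (hx'.trans hy'.symm)
        simpa using this
    have h3 := Finset.sum_le_sum (fun i (_ : i ∈ (univ : Finset ι)) => h2 i)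
    rw [← h1] at h3
    simp only [Finset.card_univ, Fintype.card_prod, Fintype.card_fin] at h3
    omega
  have hle := card_edgeFinset_le_extremalNumber hfree
  rw [hcard] at hle
  have hdeg : ∀ x, (G.degree x : ℤ) = (∑ i, a i : ℕ) - a x.1 := by
    intro x
    rw [← card_neighborFinset_eq_degree, neighborFinset_eq_filter]
    have h1 := Finset.card_filter_add_card_filter_not (s := (univ : Finset (Σ i, Fin (a i))))
      (fun y => y.1 = x.1)
    rw [hfib, Finset.card_univ, hcard] at h1
    have h2 : univ.filter (G.Adj x) = univ.filter (fun y => ¬ y.1 = x.1) := by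
      ext y
      simp only [Finset.mem_filter, Finset.mem_univ, true_and, hadj]
      exact ne_comm
    rw [h2]
    omega
  have hs := G.sum_degrees_eq_twice_card_edges
  have hs' : (∑ v, (G.degree v : ℤ)) = 2 * #G.edgeFinset := by exact_mod_cast hs
  rw [Finset.sum_congr rfl (fun v _ => hdeg v), Fintype.sum_sigma] at hs'
  simp only [Finset.sum_const, Finset.card_univ, Fintype.card_fin, nsmul_eq_mul] at hs'
  have h5 : ∑ i, (a i : ℤ) * (((∑ i, a i : ℕ) : ℤ) - a i) =
      ((∑ i, a i : ℕ) : ℤ) * ((∑ i, a i : ℕ) - 1) - ∑ i, (a i : ℤ) * (a i - 1) := by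
    have : ((∑ i, a i : ℕ) : ℤ) * ((∑ i, a i : ℕ) - 1) =
        ∑ i, (a i : ℤ) * (((∑ i, a i : ℕ) : ℤ) - 1) := by
      rw [← Finset.sum_mul]
      push_cast
      rfl
    rw [this, ← Finset.sum_sub_distrib]
    exact Finset.sum_congr rfl (fun i _ => by ring)
  rw [← h5, hs']
  have : (#G.edgeFinset : ℤ) ≤ extremalNumber (∑ i, a i) (disjCliques k p) := by exact_mod_cast hle
  linarith

/-- `x` parts of size `r`, `y` parts of size `r + 1` and `z` singleton parts -/
theorem lower' (x y z r k p n : ℕ) (hn : n = x * r + y * (r + 1) + z)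
    (h : k * (x + y) + z < k * p) :
    (n : ℤ) * (n - 1) - (x * (r * (r - 1)) + y * ((r + 1) * r)) ≤
      2 * (extremalNumber n (disjCliques k p) : ℤ) := by
  let a : Fin x ⊕ Fin y ⊕ Fin z → ℕ :=
    Sum.elim (fun _ => r) (Sum.elim (fun _ => r + 1) (fun _ => 1))
  have hsum : ∑ i, a i = n := by
    simp [a, Fintype.sum_sum_type, hn, add_assoc]
  have := lower a k p (by
    simp only [a, Fintype.sum_sum_type, Sum.elim_inl, Sum.elim_inr, Finset.sum_const,
      Finset.card_univ, Fintype.card_fin, smul_eq_mul]
    have h1 : x * min r k ≤ x * k := Nat.mul_le_mul_left _ (min_le_right _ _)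
    have h2 : y * min (r + 1) k ≤ y * k := Nat.mul_le_mul_left _ (min_le_right _ _)
    have h3 : z * min 1 k ≤ z * 1 := Nat.mul_le_mul_left _ (min_le_left _ _)
    nlinarith)
  rw [hsum] at this
  simpa [a, Fintype.sum_sum_type] using this

/-- the number of edges of the Turan graph -/
theorem turan_count (q j : ℕ) (hj : j ≤ q) (r : ℕ) :
    2 * (#(turanGraph (r * q + j) q).edgeFinset : ℤ) =
      (r * q + j) * (r * q + j - 1) - r * ((r - 1) * q + 2 * j) := by
  induction r with
  | zero =>
    have h1 : #(turanGraph (0 * q + j) q).edgeFinset = (0 * q + j).choose 2 := by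
      have := card_edgeFinset_top_eq_card_choose_two (V := Fin (0 * q + j))
      rw [Fintype.card_fin] at this
      rw [← this]
      have h0 : turanGraph (0 * q + j) q = ⊤ := by
        rw [turanGraph_eq_top]
        right; omega
      congr 1
      ext e
      simp only [mem_edgeFinset, h0]
    rw [h1, two_mul_choose_two]
    simp
  | succ r ih =>
    have h1 : (r + 1) * q + j = (r * q + j) + q := by ring
    have h2 : #(turanGraph ((r + 1) * q + j) q).edgeFinset =
        #(turanGraph ((r * q + j) + q) q).edgeFinset := by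
      rw [h1]
    rw [h2, card_edgeFinset_turanGraph_add]
    rcases q with _ | q
    · have : j = 0 := by omega
      subst this
      push_cast at ih ⊢
      simp at ih ⊢
    · have h3 := two_mul_choose_two (q + 1)
      rw [Nat.add_sub_cancel]
      push_cast at ih h3 ⊢
      linarith

end Pool.Agent.Lib.MP_4c03a7_co
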