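import Mathlib
import Pool.Agent.Lib.MP_4c03a7_co.Upper

/-!
Two colouring lemmas: repeated removal of maximum independent sets, and balancing of the classes.
-/

set_option autoImplicit false

open Finset

namespace Pool.Agent.Lib.MP_4c03a7_co

variable {V : Type*} [DecidableEq V] (H : SimpleGraph V) [DecidableRel H.Adj]

/-- `c` is a proper colouring of `W` with colours below `k` -/
def Col (k : ℕ) (W : Finset V) (c : V → ℕ) : Prop :=
  (∀ v ∈ W, c v < k) ∧ ∀ u ∈ W, ∀ v ∈ W, c u = c v → ¬ H.Adj u v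

/-- the colour class of `x` inside `W` -/
def cls (W : Finset V) (c : V → ℕ) (x : ℕ) : Finset V := W.filter (fun v => c v = x)

omit [DecidableRel H.Adj] in
lemma exists_max_ind (U : Finset V) :
    ∃ I ⊆ U, Ind H I ∧ (∀ J ⊆ U, Ind H J → J.card ≤ I.card) ∧
      ∀ u ∈ U, ∃ v ∈ I, (u = v ∨ H.Adj u v) := by
  classical
  have hne : (U.powerset.filter (Ind H)).Nonempty :=
    ⟨∅, Finset.mem_filter.2 ⟨by simp, fun a ha => by simp at ha⟩⟩
  obtain ⟨I, hI, hmax⟩ := Finset.exists_max_image _ Finset.card hne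
  obtain ⟨hIU, hind⟩ := Finset.mem_filter.1 hI
  rw [Finset.mem_powerset] at hIU
  have hmax' : ∀ J ⊆ U, Ind H J → J.card ≤ I.card := fun J hJ hJi =>
    hmax J (Finset.mem_filter.2 ⟨Finset.mem_powerset.2 hJ, hJi⟩)
  refine ⟨I, hIU, hind, hmax', ?_⟩
  intro u hu
  by_contra hcon
  push Not at hcon
  have huI : u ∉ I := fun h => (hcon u h).1 rfl
  have h1 := hmax' (insert u I) (Finset.insert_subset hu hIU) (by
    intro a ha b hb
    rcases Finset.mem_insert.1 ha with rfl | ha' <;> rcases Finset.mem_insert.1 hb with rfl | hb'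
    · exact H.irrefl
    · exact (hcon b hb').2
    · exact fun h => (hcon a ha').2 h.symm
    · exact hind a ha' b hb')
  rw [Finset.card_insert_of_notMem huI] at h1
  omega

/-- removal of `k` maximum independent sets in turn -/
lemma colour (k : ℕ) : ∀ U : Finset V, ∃ (j : ℕ) (R : Finset V) (c : V → ℕ), R ⊆ U ∧
    Col H k (U \ R) c ∧ (∀ J ⊆ R, Ind H J → J.card ≤ j) ∧ (∃ I ⊆ U, Ind H I ∧ j ≤ I.card) ∧
    j * k + R.card ≤ U.card ∧
    ∑ v ∈ R, dg H R v + 2 * k * R.card + j * (k * ((k : ℤ) - 1)) ≤ ∑ v ∈ U, dg H U v := by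
  induction k with
  | zero =>
    intro U
    obtain ⟨I, hIU, hind, hmax, -⟩ := exists_max_ind H U
    refine ⟨I.card, U, fun _ => 0, le_refl _, ⟨?_, ?_⟩, hmax, ⟨I, hIU, hind, le_refl _⟩, by simp,
      by simp⟩
    · intro v hv; simp at hv
    · intro v hv; simp at hv
  | succ k ih =>
    intro U
    obtain ⟨I, hIU, hind, hmax, hdom⟩ := exists_max_ind H U
    obtain ⟨j, R, c, hR, ⟨hc1, hc2⟩, hj, ⟨I', hI', hI'i, hI'c⟩, hcard, hE⟩ := ih (U \ I)
    have hjI : j ≤ I.card := hI'c.trans (hmax I' (hI'.trans Finset.sdiff_subset) hI'i)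
    have hmem : ∀ v ∈ U \ R, v ∉ I → v ∈ (U \ I) \ R := by
      intro v hv hvI
      rw [Finset.mem_sdiff] at hv
      simp [hv.1, hv.2, hvI]
    have hsd : (U \ I).card + I.card = U.card := Finset.card_sdiff_add_card_eq_card hIU
    refine ⟨j, R, fun v => if v ∈ I then k else c v, hR.trans Finset.sdiff_subset, ⟨?_, ?_⟩, hj,
      ⟨I, hIU, hind, hjI⟩, ?_, ?_⟩
    · intro v hv
      by_cases h : v ∈ I
      · simp [h]
      · have := hc1 v (hmem v hv h)
        simp only [h, if_false]
        omega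
    · intro u hu v hv huv
      by_cases h1 : u ∈ I <;> by_cases h2 : v ∈ I
      · exact hind u h1 v h2
      · have := hc1 v (hmem v hv h2)
        simp only [h1, h2, if_true, if_false] at huv
        omega
      · have := hc1 u (hmem u hu h1)
        simp only [h1, h2, if_true, if_false] at huv
        omega
      · simp only [h1, h2, if_false] at huv
        exact hc2 u (hmem u hu h1) v (hmem v hv h2) huv
    · rw [Nat.mul_succ]; omega
    · have h1 := dom_bound H U I hIU hdom
      have h2 := sum_dg_sdiff H U I hIU hind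
      have h3 : ((U \ I).card : ℤ) + I.card = U.card := by exact_mod_cast hsd
      have h4 : (j : ℤ) * k + R.card ≤ (U \ I).card := by exact_mod_cast hcard
      push_cast
      nlinarith

omit [DecidableRel H.Adj] in
lemma pack_of_classes (p : ℕ) (c : V → ℕ) : ∀ (k : ℕ) (W : Finset V),
    (∀ u ∈ W, ∀ v ∈ W, c u = c v → ¬ H.Adj u v) → (∀ x < k, p ≤ (cls W c x).card) →
    Pack H p k W
  | 0, _, _, _ => trivial
  | k + 1, W, hc, h => by
    obtain ⟨I, hI, hIc⟩ := Finset.exists_subset_card_eq (h k (Nat.lt_succ_self k))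
    have hI' : ∀ v ∈ I, v ∈ W ∧ c v = k := fun v hv => Finset.mem_filter.1 (hI hv)
    refine ⟨I, fun v hv => (hI' v hv).1, fun a ha b hb =>
      hc a (hI' a ha).1 b (hI' b hb).1 (by rw [(hI' a ha).2, (hI' b hb).2]), hIc, ?_⟩
    refine pack_of_classes p c k (W \ I) (fun u hu v hv =>
      hc u (Finset.mem_sdiff.1 hu).1 v (Finset.mem_sdiff.1 hv).1) ?_
    intro x hx
    refine (h x (by omega)).trans (Finset.card_le_card ?_)
    intro v hv
    obtain ⟨h1, h2⟩ := Finset.mem_filter.1 hv
    refine Finset.mem_filter.2 ⟨Finset.mem_sdiff.2 ⟨h1, fun hvI => ?_⟩, h2⟩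
    have := (hI' v hvI).2
    omega

lemma cls_update (W : Finset V) (c : V → ℕ) (v : V) (hv : v ∈ W) (a x : ℕ) :
    (cls W (Function.update c v a) x).card + (if x = c v then 1 else 0) =
      (cls W c x).card + (if x = a then 1 else 0) := by
  unfold cls
  rw [Finset.card_filter, Finset.card_filter, ← Finset.add_sum_erase W _ hv,
    ← Finset.add_sum_erase W _ hv]
  have h1 : ∑ w ∈ W.erase v, (if Function.update c v a w = x then 1 else 0) =
      ∑ w ∈ W.erase v, (if c w = x then 1 else 0) :=
    Finset.sum_congr rfl fun w hw => by rw [Function.update_of_ne (Finset.ne_of_mem_erase hw)]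
  rw [h1, Function.update_self]
  by_cases h2 : x = a <;> by_cases h3 : x = c v
  · rw [if_pos h2.symm, if_pos h3, if_pos h3.symm, if_pos h2]
  · rw [if_pos h2.symm, if_neg h3, if_neg (fun h => h3 h.symm), if_pos h2]; omega
  · rw [if_neg (fun h => h2 h.symm), if_pos h3, if_pos h3.symm, if_neg h2]; omega
  · rw [if_neg (fun h => h2 h.symm), if_neg h3, if_neg (fun h => h3 h.symm), if_neg h2]

omit [DecidableEq V] in
lemma dg_eq_card (U : Finset V) (v : V) : dg H U v = ((U.filter (H.Adj v)).card : ℤ) := by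
  unfold dg
  rw [Finset.card_filter]
  push_cast
  rfl

omit [DecidableEq V] in
lemma two_cut_le (W : Finset V) (P : V → Prop) [DecidablePred P] :
    2 * ∑ v ∈ W.filter (fun v => ¬ P v), dg H (W.filter P) v ≤ ∑ v ∈ W, dg H W v := by
  have hsym : ∑ v ∈ W.filter (fun v => ¬ P v), dg H (W.filter P) v =
      ∑ v ∈ W.filter P, dg H (W.filter (fun v => ¬ P v)) v := by
    unfold dg
    rw [Finset.sum_comm]
    refine Finset.sum_congr rfl (fun v _ => Finset.sum_congr rfl (fun u _ => ?_))
    simp only [H.adj_comm]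
  have hmono : ∀ (U : Finset V), U ⊆ W → ∀ v, dg H U v ≤ dg H W v := by
    intro U hU v
    unfold dg
    exact Finset.sum_le_sum_of_subset_of_nonneg hU (fun u _ _ => by split_ifs <;> norm_num)
  have h1 : ∑ v ∈ W.filter (fun v => ¬ P v), dg H (W.filter P) v ≤
      ∑ v ∈ W.filter (fun v => ¬ P v), dg H W v :=
    Finset.sum_le_sum fun v _ => hmono _ (Finset.filter_subset _ _) v
  have h2 : ∑ v ∈ W.filter P, dg H (W.filter (fun v => ¬ P v)) v ≤ ∑ v ∈ W.filter P, dg H W v :=
    Finset.sum_le_sum fun v _ => hmono _ (Finset.filter_subset _ _) v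
  have h3 := Finset.sum_filter_add_sum_filter_not W P (fun v => dg H W v)
  linarith

/-- one improvement step for the class sizes -/
lemma improve (k p : ℕ) (W : Finset V) (c : V → ℕ) (hc : Col H k W c) (hW : k * p ≤ W.card)
    (hE : ∑ v ∈ W, dg H W v ≤ 2 * (((k : ℤ) - 1) * p)) (a0 : ℕ) (ha0 : a0 < k)
    (hsmall : (cls W c a0).card < p) :
    ∃ d, Col H k W d ∧
      ∑ x ∈ range k, (p - (cls W d x).card) < ∑ x ∈ range k, (p - (cls W c x).card) := by
  classical
  let good : Finset ℕ → Prop := fun A => a0 ∈ A ∧ ∀ a ∈ A, ∃ d, Col H k W d ∧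
    (∀ v ∈ W, c v ∉ A → d v = c v) ∧ (∀ v ∈ W, c v ∈ A → d v ∈ A) ∧
    (∀ v ∈ W, d v = a → c v = a) ∧
    ∀ x, (cls W d x).card + (if x = a then 1 else 0) =
      (cls W c x).card + (if x = a0 then 1 else 0)
  have hne : ((range k).powerset.filter good).Nonempty := by
    refine ⟨{a0}, Finset.mem_filter.2 ⟨by simpa using ha0, Finset.mem_singleton_self _, ?_⟩⟩
    intro a ha
    rw [Finset.mem_singleton.1 ha]
    exact ⟨c, hc, fun _ _ _ => rfl, fun _ _ h => h, fun _ _ h => h, fun _ => rfl⟩
  obtain ⟨A, hA, hmax⟩ := Finset.exists_max_image _ Finset.card hne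
  obtain ⟨hAk, hA0, hAd⟩ := Finset.mem_filter.1 hA
  rw [Finset.mem_powerset] at hAk
  -- the set of accessible colours is closed
  have hclosed : ∀ v ∈ W, c v ∉ A → ∀ a ∈ A, ∃ w ∈ W, c w = a ∧ H.Adj v w := by
    intro v hv hvA a ha
    by_contra hcon
    push Not at hcon
    obtain ⟨d, hd, hd1, hd2, hd3, hd4⟩ := hAd a ha
    have hdv : d v = c v := hd1 v hv hvA
    have hmem : insert (c v) A ∈ (range k).powerset.filter good := by
      refine Finset.mem_filter.2 ⟨Finset.mem_powerset.2 (Finset.insert_subset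
        (Finset.mem_range.2 (hc.1 v hv)) hAk), Finset.mem_insert_of_mem hA0, ?_⟩
      have hin : ∀ e : V → ℕ, (∀ w ∈ W, c w ∉ A → e w = c w) → (∀ w ∈ W, c w ∈ A → e w ∈ A) →
          ∀ w ∈ W, c w ∈ insert (c v) A → e w ∈ insert (c v) A := by
        intro e he1 he2 w hw h
        by_cases h' : c w ∈ A
        · exact Finset.mem_insert_of_mem (he2 w hw h')
        · rw [he1 w hw h']; exact h
      intro b hb
      rcases Finset.mem_insert.1 hb with rfl | hb
      · refine ⟨Function.update d v a, ⟨?_, ?_⟩, ?_, ?_, ?_, ?_⟩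
        · intro w hw
          by_cases h : w = v
          · rw [h, Function.update_self]; exact Finset.mem_range.1 (hAk ha)
          · rw [Function.update_of_ne h]; exact hd.1 w hw
        · intro u hu w hw huw
          by_cases h1 : u = v <;> by_cases h2 : w = v
          · rw [h1, h2]; exact H.irrefl
          · rw [h1, Function.update_self, Function.update_of_ne h2] at huw
            rw [h1]
            exact hcon w hw (hd3 w hw huw.symm)
          · rw [h2, Function.update_self, Function.update_of_ne h1] at huw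
            rw [h2]
            exact fun h => hcon u hu (hd3 u hu huw) h.symm
          · rw [Function.update_of_ne h1, Function.update_of_ne h2] at huw
            exact hd.2 u hu w hw huw
        · intro w hw h
          have h1 : w ≠ v := fun e => h (by rw [e]; exact Finset.mem_insert_self _ _)
          rw [Function.update_of_ne h1]
          exact hd1 w hw (fun h2 => h (Finset.mem_insert_of_mem h2))
        · intro w hw h
          by_cases h1 : w = v
          · rw [h1, Function.update_self]; exact Finset.mem_insert_of_mem ha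
          · rw [Function.update_of_ne h1]; exact hin d hd1 hd2 w hw h
        · intro w hw h
          by_cases h1 : w = v
          · rw [h1]
          · rw [Function.update_of_ne h1] at h
            by_cases h2 : c w ∈ A
            · exact absurd (h ▸ hd2 w hw h2) hvA
            · rw [← hd1 w hw h2, h]
        · intro x
          have h1 := cls_update W d v hv a x
          rw [hdv] at h1
          rw [h1, hd4 x]
      · obtain ⟨e, he, he1, he2, he3, he4⟩ := hAd b hb
        exact ⟨e, he, fun w hw h => he1 w hw (fun h2 => h (Finset.mem_insert_of_mem h2)),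
          hin e he1 he2, he3, he4⟩
    have := hmax _ hmem
    rw [Finset.card_insert_of_notMem hvA] at this
    omega
  by_cases hbig : ∃ a ∈ A, p < (cls W c a).card
  · obtain ⟨a, ha, hlt⟩ := hbig
    obtain ⟨d, hd, -, -, -, hd4⟩ := hAd a ha
    have hne' : a0 ≠ a := by rintro rfl; omega
    refine ⟨d, hd, Finset.sum_lt_sum (fun x _ => ?_) ⟨a0, Finset.mem_range.2 ha0, ?_⟩⟩
    · have h1 := hd4 x
      by_cases h2 : x = a
      · subst h2
        rw [if_pos rfl, if_neg (fun h => hne' h.symm)] at h1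
        omega
      · rw [if_neg h2] at h1
        omega
    · have h1 := hd4 a0
      rw [if_neg hne', if_pos rfl] at h1
      omega
  exfalso
  push Not at hbig
  have h1 : (W.filter (fun v => c v ∈ A)).card < A.card * p := by
    rw [Finset.card_eq_sum_card_fiberwise (f := c) (t := A)
      (fun v hv => by simpa using (Finset.mem_filter.1 hv).2)]
    have h2 : ∀ a ∈ A, ((W.filter (fun v => c v ∈ A)).filter (fun v => c v = a)).card ≤
        (cls W c a).card := fun a _ => Finset.card_le_card
      (Finset.filter_subset_filter _ (Finset.filter_subset _ _))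
    calc _ < ∑ _a ∈ A, p := Finset.sum_lt_sum (fun a ha => (h2 a ha).trans (hbig a ha))
          ⟨a0, hA0, (h2 a0 hA0).trans_lt hsmall⟩
      _ = A.card * p := by simp
  have h2 := Finset.card_filter_add_card_filter_not (s := W) (fun v => c v ∈ A)
  have h3 : ∀ v ∈ W.filter (fun v => ¬ c v ∈ A),
      (A.card : ℤ) ≤ dg H (W.filter (fun v => c v ∈ A)) v := by
    intro v hv
    obtain ⟨hvW, hvA⟩ := Finset.mem_filter.1 hv
    rw [dg_eq_card]
    have h4 : A ⊆ ((W.filter (fun v => c v ∈ A)).filter (H.Adj v)).image c := by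
      intro a ha
      obtain ⟨w, hw, hwa, hadj⟩ := hclosed v hvW hvA a ha
      exact Finset.mem_image.2 ⟨w, Finset.mem_filter.2 ⟨Finset.mem_filter.2 ⟨hw, hwa ▸ ha⟩, hadj⟩,
        hwa⟩
    exact_mod_cast (Finset.card_le_card h4).trans Finset.card_image_le
  have h4 := Finset.card_nsmul_le_sum _ _ _ h3
  rw [nsmul_eq_mul] at h4
  have h5 := two_cut_le H W (fun v => c v ∈ A)
  have ha1 : 1 ≤ A.card := Finset.card_pos.2 ⟨a0, hA0⟩
  have hak : A.card ≤ k := by simpa using Finset.card_le_card hAk
  have hpos : 0 < (W.filter (fun v => ¬ c v ∈ A)).card := by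
    have : A.card * p ≤ k * p := Nat.mul_le_mul_right _ hak
    omega
  have hak' : A.card < k := by
    obtain ⟨v, hv⟩ := Finset.card_pos.1 hpos
    obtain ⟨hvW, hvA⟩ := Finset.mem_filter.1 hv
    have h6 : A ⊂ range k := (Finset.ssubset_iff_of_subset hAk).2
      ⟨c v, Finset.mem_range.2 (hc.1 v hvW), hvA⟩
    simpa using Finset.card_lt_card h6
  obtain ⟨a, ha⟩ : ∃ a, A.card = a + 1 := ⟨A.card - 1, by omega⟩
  obtain ⟨b, hb⟩ : ∃ b, k = a + 1 + (b + 1) := ⟨k - a - 2, by omega⟩
  rw [ha] at h1 h4
  have h7 : (b + 1) * p + 1 ≤ (W.filter (fun v => ¬ c v ∈ A)).card := by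
    have : k * p = (a + 1) * p + (b + 1) * p := by rw [hb]; ring
    omega
  have h8 : ((b : ℤ) + 1) * p + 1 ≤ (W.filter (fun v => ¬ c v ∈ A)).card := by exact_mod_cast h7
  have h9 : (k : ℤ) = a + 1 + (b + 1) := by exact_mod_cast hb
  rw [h9] at hE
  push_cast at h4
  have hz : (0 : ℤ) ≤ a * (b * p) := by positivity
  have ha0' : (0 : ℤ) ≤ a := Int.natCast_nonneg a
  nlinarith

/-- a `k`-coloured set of at least `k p` vertices with at most `(k - 1) p` edges -/
lemma balance (k p : ℕ) (W : Finset V) (hW : k * p ≤ W.card)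
    (hE : ∑ v ∈ W, dg H W v ≤ 2 * (((k : ℤ) - 1) * p)) : ∀ (N : ℕ) (c : V → ℕ), Col H k W c →
    ∑ x ∈ range k, (p - (cls W c x).card) = N → Pack H p k W := by
  intro N
  induction N using Nat.strong_induction_on with
  | _ N ih =>
  intro c hc hN
  by_cases h : ∀ x < k, p ≤ (cls W c x).card
  · exact pack_of_classes H p c k W hc.2 h
  · push Not at h
    obtain ⟨a0, ha0, hs⟩ := h
    obtain ⟨d, hd, hlt⟩ := improve H k p W c hc hW hE a0 ha0 hs
    exact ih _ (hN ▸ hlt) d hd rfl

end Pool.Agent.Lib.MP_4c03a7_co
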