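import Mathlib
import Pool.Agent.Lib.MP_4c03a7_co.Bounds
import Pool.Agent.Lib.MP_4c03a7_co.GapCol

/-!
The extremal number of disjoint cliques for a number of vertices slightly above `k p`.
-/

set_option autoImplicit false

open Finset SimpleGraph

namespace Pool.Agent.Lib.MP_4c03a7_co

section
variable {V : Type*} [DecidableEq V] (H : SimpleGraph V) [DecidableRel H.Adj]

/-- A set of `k p - 1 + s` vertices without a packing has more than `(k - 1) p` edges, or at least
as many edges as `j` disjoint cliques of total size `j k + s`, for some `1 ≤ j < p`. -/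
theorem gap_alt (k p s : ℕ) (hk : 2 ≤ k) (hs : 1 ≤ s) (U : Finset V) (hU : U.card + 1 = k * p + s)
    (hno : ¬ Pack H p k U) :
    2 * (((k : ℤ) - 1) * p) < ∑ v ∈ U, dg H U v ∨ ∃ j : ℕ, 1 ≤ j ∧ j < p ∧ ∀ r : ℕ,
      (r : ℤ) * (2 * s - j * (r + 1)) + 2 * k * s + j * (k * ((k : ℤ) - 1)) ≤
        ∑ v ∈ U, dg H U v := by
  by_contra hcon
  push Not at hcon
  obtain ⟨hE, hcon⟩ := hcon
  obtain ⟨j, R, c, hR, hc, hj, -, -, hle⟩ := colour H k U
  have hsd : (U \ R).card + R.card = U.card := Finset.card_sdiff_add_card_eq_card hR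
  have hk' : (2 : ℤ) ≤ k := by exact_mod_cast hk
  have hs' : (1 : ℤ) ≤ s := by exact_mod_cast hs
  have hR0 : 0 ≤ ∑ v ∈ R, dg H R v := Finset.sum_nonneg (fun v _ => dg_nonneg H R v)
  by_cases hRs : R.card < s
  · refine hno (Pack.mono H p k _ _ Finset.sdiff_subset
      (balance H k p (U \ R) (by omega) (le_trans ?_ hE) _ c hc rfl))
    calc ∑ v ∈ U \ R, dg H (U \ R) v ≤ ∑ v ∈ U \ R, dg H U v := by
          refine Finset.sum_le_sum fun v _ => ?_
          unfold dg
          exact Finset.sum_le_sum_of_subset_of_nonneg Finset.sdiff_subset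
            (fun u _ _ => by split_ifs <;> norm_num)
      _ ≤ ∑ v ∈ U, dg H U v := Finset.sum_le_sum_of_subset_of_nonneg Finset.sdiff_subset
            (fun u _ _ => dg_nonneg H U u)
  push Not at hRs
  have hRs' : (s : ℤ) ≤ R.card := by exact_mod_cast hRs
  have hj1 : 1 ≤ j := by
    obtain ⟨v, hv⟩ := Finset.card_pos.1 (show 0 < R.card by omega)
    have := hj {v} (Finset.singleton_subset_iff.2 hv) (by
      intro a ha b hb
      rw [Finset.mem_singleton.1 ha, Finset.mem_singleton.1 hb]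
      exact H.irrefl)
    simpa using this
  have hjp : j < p := by
    by_contra hjp
    have h1 : (p : ℤ) ≤ j := by exact_mod_cast (not_lt.1 hjp)
    have h2 : (0 : ℤ) ≤ p := Int.natCast_nonneg p
    have h3 : (p : ℤ) * (k * (k - 1)) ≤ j * (k * (k - 1)) :=
      mul_le_mul_of_nonneg_right h1 (by nlinarith)
    have h4 : 2 * (((k : ℤ) - 1) * p) ≤ p * (k * (k - 1)) := by
      have : (0 : ℤ) ≤ (k - 2) * ((k - 1) * p) := by
        apply mul_nonneg (by linarith) (mul_nonneg (by linarith) h2)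
      nlinarith
    nlinarith
  obtain ⟨r, hr⟩ := hcon j hj1 hjp
  have hT : (r : ℤ) * (2 * R.card - j * (r + 1)) ≤ ∑ v ∈ R, dg H R v := by
    rcases Nat.eq_zero_or_pos r with rfl | hr0
    · simpa using hR0
    by_contra hT
    push Not at hT
    obtain ⟨I, hI, hind, hcard, -⟩ := pack_of_few_edges H (j + 1) (by omega) _ 1 r R rfl (by omega)
      (by push_cast; linarith)
    have := hj I hI hind
    omega
  have hr0 : (0 : ℤ) ≤ r := Int.natCast_nonneg r
  nlinarith

end

/-- an extremal graph, seen through its complement -/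
theorem exists_compl (n k p : ℕ) (h0 : extremalNumber n (disjCliques k p) ≠ 0) :
    ∃ (H : SimpleGraph (Fin n)) (_ : DecidableRel H.Adj), ¬ Pack H p k univ ∧
      2 * (extremalNumber n (disjCliques k p) : ℤ) + ∑ v, dg H univ v ≤ n * ((n : ℤ) - 1) := by
  classical
  have hlt : extremalNumber n (disjCliques k p) - 1 <
      extremalNumber (Fintype.card (Fin n)) (disjCliques k p) := by
    rw [Fintype.card_fin]; omega
  obtain ⟨G, _, hfree, hG⟩ := (lt_extremalNumber_iff _ _).1 hlt
  have hG' : (extremalNumber n (disjCliques k p) : ℤ) ≤ #G.edgeFinset := by omega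
  have hdeg : ∀ v, dg Gᶜ univ v = n - 1 - G.degree v := by
    intro v
    have h1 : dg Gᶜ univ v = (Gᶜ.degree v : ℤ) := by
      unfold dg
      rw [← card_neighborFinset_eq_degree, neighborFinset_eq_filter, Finset.card_filter]
      push_cast
      rfl
    have h2 := G.degree_compl v
    have h3 := G.degree_lt_card_verts v
    rw [Fintype.card_fin] at h2 h3
    omega
  have hsum : ∑ v, dg Gᶜ univ v = n * (n - 1) - 2 * #G.edgeFinset := by
    rw [Finset.sum_congr rfl (fun v _ => hdeg v), Finset.sum_sub_distrib, Finset.sum_const,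
      Finset.card_univ, Fintype.card_fin, nsmul_eq_mul]
    have := G.sum_degrees_eq_twice_card_edges
    have h2 : (∑ v, (G.degree v : ℤ)) = 2 * #G.edgeFinset := by exact_mod_cast this
    rw [h2]
  refine ⟨Gᶜ, inferInstance, fun hpack => ?_, by rw [hsum]; linarith⟩
  obtain ⟨g, hg, -, hind⟩ := Pack.exists_fun Gᶜ p k univ hpack
  apply hfree
  refine ⟨⟨⟨g, ?_⟩, hg⟩⟩
  rintro ⟨a, b⟩ ⟨a', b'⟩ ⟨h1, h2⟩
  simp only at h1 h2
  subst h1
  have h3 := hind a b b'
  rw [compl_adj] at h3
  push Not at h3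
  exact h3 (fun h => h2 (by simpa using hg h))

/-- the number of edges of the join of `K_(i k - 1)` and `T_(n - i k + 1, p - i)` -/
noncomputable def joinEdges (k p n i : ℕ) : ℕ :=
  (i * k - 1).choose 2 + (i * k - 1) * (n - i * k + 1) +
    (turanGraph (n - i * k + 1) (p - i)).edgeFinset.card

theorem joinEdges_eq (k s i j n p : ℕ) (hk : 1 ≤ k) (hs : 1 ≤ s) (hi : 1 ≤ i) (hj : 1 ≤ j)
    (hp : p = i + j) (hn : n + 1 = k * p + s) :
    2 * (joinEdges k p n i : ℤ) = n * ((n : ℤ) - 1) -
      (((s / j : ℕ) : ℤ) * (2 * s - j * ((s / j : ℕ) + 1)) + 2 * k * s + j * (k * ((k : ℤ) - 1))) ∧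
    joinEdges k p n i ≤ extremalNumber n (disjCliques k p) := by
  have hdm := Nat.div_add_mod s j
  have hlt := Nat.mod_lt s (show 0 < j by omega)
  set r := s / j
  set y := s % j
  obtain ⟨z, hz⟩ : ∃ z, i * k = z + 1 :=
    ⟨i * k - 1, by have := Nat.mul_pos hi hk; omega⟩
  have hn' : n = z + ((k + r) * j + y) := by
    have : k * p = i * k + k * j := by rw [hp]; ring
    have : (k + r) * j = k * j + j * r := by ring
    omega
  have e1 : n - i * k + 1 = (k + r) * j + y := by
    have : j * r + y ≤ (k + r) * j + y := by nlinarith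
    omega
  have e2 : i * k - 1 = z := by omega
  have e3 : p - i = j := by omega
  have ht := turan_count j y hlt.le (k + r)
  have hc := two_mul_choose_two z
  have hval : 2 * (joinEdges k p n i : ℤ) = n * ((n : ℤ) - 1) -
      ((r : ℤ) * (2 * s - j * (r + 1)) + 2 * k * s + j * (k * ((k : ℤ) - 1))) := by
    unfold joinEdges
    have e4 : (turanGraph (n - i * k + 1) (p - i)).edgeFinset.card =
        (turanGraph ((k + r) * j + y) j).edgeFinset.card := by
      rw [e1, e3]
    rw [e4, e1, e2, hn', ← hdm]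
    push_cast at ht ⊢
    linear_combination hc + ht
  refine ⟨hval, ?_⟩
  obtain ⟨x, hx⟩ : ∃ x, j = x + y := ⟨j - y, by omega⟩
  have hlow := lower' x y z (k + r) k p n (by rw [hn', hx]; ring) (by
    have : k * p = i * k + k * j := by rw [hp]; ring
    rw [← hx]; omega)
  have h1 : (s : ℤ) = (x + y) * r + y := by rw [← hdm, hx]; push_cast; ring
  have h2 : (j : ℤ) = x + y := by exact_mod_cast hx
  have h3 : 2 * (joinEdges k p n i : ℤ) ≤ 2 * (extremalNumber n (disjCliques k p) : ℤ) := by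
    rw [hval, h1, h2]
    push_cast at hlow
    linarith
  omega

theorem gap_main (k p n J : ℕ) (hk : 2 ≤ k) (hp : (2 * k - 1) * J ≤ p) (h1 : k * p ≤ n)
    (h2 : n < k * p + (k - 1) * J) :
    extremalNumber n (disjCliques k p) = (Finset.Icc 1 (p - 1)).sup (joinEdges k p n) := by
  obtain ⟨s, hs⟩ : ∃ s, n + 1 = k * p + s := ⟨n + 1 - k * p, by omega⟩
  have hs1 : 1 ≤ s := by omega
  have hsJ : s ≤ (k - 1) * J := by omega
  refine le_antisymm ?_ (Finset.sup_le fun i hi => ?_)
  swap
  · rw [Finset.mem_Icc] at hi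
    exact (joinEdges_eq k s i (p - i) n p (by omega) hs1 hi.1 (by omega) (by omega) hs).2
  by_cases h0 : extremalNumber n (disjCliques k p) = 0
  · rw [h0]; exact Nat.zero_le _
  obtain ⟨H, _, hno, hE⟩ := exists_compl n k p h0
  have key : ∀ j : ℕ, 1 ≤ j → j < p →
      (((s / j : ℕ) : ℤ) * (2 * s - j * ((s / j : ℕ) + 1)) + 2 * k * s + j * (k * ((k : ℤ) - 1)) ≤
        ∑ v, dg H univ v) →
      extremalNumber n (disjCliques k p) ≤ (Finset.Icc 1 (p - 1)).sup (joinEdges k p n) := by
    intro j hj1 hjp hle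
    have h3 := (joinEdges_eq k s (p - j) j n p (by omega) hs1 (by omega) hj1 (by omega) hs).1
    have h4 : extremalNumber n (disjCliques k p) ≤ joinEdges k p n (p - j) := by
      have : 2 * (extremalNumber n (disjCliques k p) : ℤ) ≤ 2 * (joinEdges k p n (p - j) : ℤ) := by
        linarith
      omega
    exact h4.trans (Finset.le_sup (Finset.mem_Icc.2 ⟨by omega, by omega⟩))
  rcases gap_alt H k p s hk hs1 univ (by simpa using hs) hno with h | ⟨j, hj1, hjp, hle⟩
  swap
  · exact key j hj1 hjp (hle _)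
  obtain ⟨m, rfl⟩ : ∃ m, k = m + 2 := ⟨k - 2, by omega⟩
  have e1 : 2 * (m + 2) - 1 = 2 * m + 3 := by omega
  have e2 : m + 2 - 1 = m + 1 := by omega
  rw [e1] at hp
  rw [e2] at hsJ
  have hJ : 1 ≤ J := by
    rcases Nat.eq_zero_or_pos J with rfl | h
    · omega
    · exact h
  refine key J hJ (by nlinarith) (le_trans ?_ h.le)
  have hdm := Nat.div_add_mod s J
  have hlt := Nat.mod_lt s (show 0 < J by omega)
  set r := s / J
  set y := s % J
  have hp' : (2 * (m : ℤ) + 3) * J ≤ p := by exact_mod_cast hp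
  have hs' : (s : ℤ) = J * r + y := by exact_mod_cast hdm.symm
  have hsJ' : (s : ℤ) ≤ (m + 1) * J := by exact_mod_cast hsJ
  have hy : (y : ℤ) < J := by exact_mod_cast hlt
  have hy0 : (0 : ℤ) ≤ y := Int.natCast_nonneg y
  have hm0 : (0 : ℤ) ≤ m := Int.natCast_nonneg m
  have hr0 : (0 : ℤ) ≤ r := Int.natCast_nonneg r
  have hJ' : (1 : ℤ) ≤ J := by exact_mod_cast hJ
  have hr : (r : ℤ) ≤ m + 1 := by
    by_contra hcon
    have : (m : ℤ) + 2 ≤ r := by omega
    nlinarith
  push_cast
  have h5 : 2 * (((m : ℤ) + 1) * ((2 * m + 3) * J)) ≤ 2 * ((m + 2 - 1) * p) := by nlinarith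
  refine le_trans ?_ h5
  rcases hr.lt_or_eq with hr | hr
  · have h6 : (r : ℤ) ≤ m := by omega
    have h7 : (s : ℤ) ≤ J * (r + 1) := by nlinarith
    have h8 : (r + m + 2 : ℤ) * s ≤ (r + m + 2) * (J * (r + 1)) :=
      mul_le_mul_of_nonneg_left h7 (by linarith)
    have h9 : (0 : ℤ) ≤ J * ((m - r) * (3 * m + r + 5)) := by
      apply mul_nonneg (by linarith) (mul_nonneg (by linarith) (by linarith))
    nlinarith
  · have h8 : (2 * m + 3 : ℤ) * s ≤ (2 * m + 3) * ((m + 1) * J) :=
      mul_le_mul_of_nonneg_left hsJ' (by linarith)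
    rw [hr]
    nlinarith

end Pool.Agent.Lib.MP_4c03a7_co
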